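import Pool.Agent.Helper38.RS.Goals1

/-!
# RS-TAM: the tame condition
-/

namespace Pool.Agent.Helper85.RS

open NumberField IsDedekindDomain Pool.Agent.Helper38.RS

theorem s_tam : S_TAM := by
  intro M _ _ v a α β ha hx
  have ha0 : a ≠ 0 := by
    rintro rfl
    apply ha
    simp [ordv]
  by_cases hβ : β = 0
  · subst hβ
    have hα : α ≠ 0 := by
      rintro rfl
      simp at hx
    left
    refine ⟨α⁻¹, ?_⟩
    have : (α ^ 2 - a * 0 ^ 2) * α⁻¹ ^ 2 - 1 = 0 := by
      field_simp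
      ring
    rw [this, map_zero]
    exact zero_lt_one
  by_cases hα : α = 0
  · subst hα
    right
    refine ⟨(a * β)⁻¹, ?_⟩
    have : -(a * (0 ^ 2 - a * β ^ 2)) * (a * β)⁻¹ ^ 2 - 1 = 0 := by
      field_simp
      ring
    rw [this, map_zero]
    exact zero_lt_one
  have hVa : v.valuation M a ≠ 0 := (Valuation.ne_zero_iff _).2 ha0
  have hVα : v.valuation M α ≠ 0 := (Valuation.ne_zero_iff _).2 hα
  have hVβ : v.valuation M β ≠ 0 := (Valuation.ne_zero_iff _).2 hβ
  have h2 : v.valuation M (α ^ 2) ≠ 0 := (Valuation.ne_zero_iff _).2 (pow_ne_zero 2 hα)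
  have h3 : v.valuation M (a * β ^ 2) ≠ 0 :=
    (Valuation.ne_zero_iff _).2 (mul_ne_zero ha0 (pow_ne_zero 2 hβ))
  have hne : v.valuation M (α ^ 2) ≠ v.valuation M (a * β ^ 2) := by
    intro he
    apply ha
    have h4 := congrArg WithZero.log he
    rw [map_pow, map_mul, map_pow, WithZero.log_pow, WithZero.log_mul hVa (pow_ne_zero 2 hVβ),
      WithZero.log_pow] at h4
    unfold ordv
    rw [even_neg]
    refine ⟨WithZero.log (v.valuation M α) - WithZero.log (v.valuation M β), ?_⟩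
    simp only [nsmul_eq_mul, Nat.cast_ofNat] at h4
    linarith
  rcases lt_or_gt_of_ne hne with h | h
  · right
    refine ⟨(a * β)⁻¹, ?_⟩
    have h5 : -(a * (α ^ 2 - a * β ^ 2)) * (a * β)⁻¹ ^ 2 - 1 = -(α ^ 2 / (a * β ^ 2)) := by
      field_simp
      ring
    rw [h5, Valuation.map_neg, map_div₀]
    exact (div_lt_one₀ (zero_lt_iff.2 h3)).2 h
  · left
    refine ⟨α⁻¹, ?_⟩
    have h5 : (α ^ 2 - a * β ^ 2) * α⁻¹ ^ 2 - 1 = -(a * β ^ 2 / α ^ 2) := by
      field_simp
      ring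
    rw [h5, Valuation.map_neg, map_div₀]
    exact (div_lt_one₀ (zero_lt_iff.2 h2)).2 h

end Pool.Agent.Helper85.RS
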